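import Pool.Agent.Lib.helper11.ETRClo
import Pool.Agent.Lib.helper11.ETRForm

namespace Pool.Agent.Results.MP_432bcd_lc.Closed

open Pool.Agent.Cx

/-- a tree read as a number -/
def idx : BT → ℕ
  | .leaf => 0
  | .node _ r => idx r + 1

/-- a tree read as a Boolean combination of the atoms `a j = 0`, `a j > 0`, `a j ≥ 0` -/
def bf (a : ℕ → ℝ) : BT → Prop
  | .leaf => True
  | .node .leaf t => ¬ bf a t
  | .node (.node .leaf t) u => bf a t ∧ bf a u
  | .node (.node (.node .leaf .leaf) t) u => bf a t ∨ bf a u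
  | .node (.node (.node .leaf (.node _ _)) _) u => a (idx u) = 0
  | .node (.node (.node (.node .leaf _) _) _) u => a (idx u) > 0
  | .node (.node (.node (.node (.node _ _) _) _) _) u => a (idx u) ≥ 0

/-- the set defined by a dimension, a list of polynomials and a Boolean combination -/
def Defd (I : ℕ × List Poly × BT) : Set (EuclideanSpace ℝ (Fin I.1)) :=
  {x | bf (fun j => (I.2.1.getD j []).ev fun i => if h : i < I.1 then x ⟨i, h⟩ else 0) I.2.2}

def CLOSED : Language := Lang fun I : ℕ × List Poly × BT => IsClosed (Defd I)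

lemma idx_eq (u : BT) : idx u = u.spine.length := by
  induction u <;> simp_all [idx, BT.spine]

lemma idx_lt (u : BT) : idx u < size u := by
  induction u with
  | leaf => exact size_pos _
  | node l r _ ih => rw [size_node, idx]; have := size_pos l; omega

lemma bf_congr {a b : ℕ → ℝ} : ∀ (n : ℕ) (t : BT), size t < n →
    (∀ j < size t, SignType.sign (a j) = SignType.sign (b j)) → (bf a t ↔ bf b t) := by
  intro n
  induction n with
  | zero => simp
  | succ n ih =>
    intro t ht h
    rcases t with _ | ⟨_ | ⟨g, t⟩, u⟩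
    · rfl
    · simp only [size_node] at *
      exact not_congr (ih u (by omega) fun j hj => h j (by omega))
    · simp only [size_node] at *
      have h1 := ih t (by omega) fun j hj => h j (by omega)
      have h2 := ih u (by omega) fun j hj => h j (by omega)
      have h3 := h _ ((idx_lt u).trans_le (by omega))
      rcases g with _ | ⟨_ | ⟨_ | _, _⟩, _ | _⟩ <;> simp only [bf, h1, h2, gt_iff_lt, ge_iff_le]
      · rw [← sign_eq_zero_iff, h3, sign_eq_zero_iff]
      · rw [← sign_eq_one_iff, h3, sign_eq_one_iff]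
      · rw [← sign_eq_one_iff, h3, sign_eq_one_iff]
      · rw [← sign_nonneg_iff, h3, sign_nonneg_iff]
      · rw [← sign_nonneg_iff, h3, sign_nonneg_iff]

lemma q_bin (A) (l : List Bool) : Q A (size l) fun _ => bin l := by
  induction l with
  | nil => simpa [bin] using Q.zero
  | cons b l ih =>
    have := size_pos b
    have h : Q A 0 fun _ => (b.toNat : ℝ) := by
      cases b
      · simpa using Q.zero
      · simpa using Q.one
    simpa [bin, one_add_one_eq_two] using (h.add (((Q.one (k := 0)).add (Q.one (k := 0))).mul ih)).le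
      (k' := size (b :: l)) (by rw [size_cons]; omega)

lemma q_ev (n : ℕ) (p : Poly) :
    Q (Set.Iio n) (size p) fun x => p.ev fun i => if i < n then x i else 0 := by
  induction p with
  | nil => simpa using Q.zero
  | cons t p ih =>
    have h1 : Q (Set.Iio n) (size t.1.2) fun _ => intVal t.1 := by
      unfold intVal
      split_ifs
      · simpa using (q_bin _ _).neg
      · simpa using q_bin _ _
    have h2 : ∀ l : List ℕ, Q (Set.Iio n) (size l)
        fun x => (l.map fun i => if i < n then x i else 0).prod := fun l => by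
      induction l with
      | nil => simpa using Q.one
      | cons i l ih =>
        have : Q (Set.Iio n) 1 fun x => if i < n then x i else 0 := by
          split_ifs with h
          exacts [Q.var h, Q.zero]
        simpa using (this.mul ih).le (k' := size (i :: l)) (by simp; omega)
    simpa using ((h1.mul (h2 t.2)).add ih).le (k' := size (t :: p)) (by
      obtain ⟨⟨a, b⟩, c⟩ := t
      simp only [size_cons, size_pair]; omega)

def nV (k j : ℕ) : BT := tV k (Enc.toBT j)
def tT (k : ℕ) (u : BT) : BT := fE (tV k u) .leaf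

def loc (k k' : ℕ) (u : BT) : BT := fI (tT k u)
  (bif !u.isNode then .leaf else bif !u.left.isNode then fN (tT k u.right)
  else bif !u.left.left.isNode then tA (tT k u.left.right) (tT k u.right)
  else bif !u.left.left.left.isNode then (bif !u.left.left.right.isNode then
    tS (tT k u.left.right) (tT k u.right) else fE (nV k' u.right.spine.length) tZ)
  else bif !u.left.left.left.left.isNode then tM tZ (nV k' u.right.spine.length)
  else fN (tM (nV k' u.right.spine.length) tZ))

lemma loc_ok {X : BT → ℝ} {k k' : ℕ} {a : ℕ → ℝ} (h1 : ∀ u, fm X (tT k u) ↔ bf a u)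
    (h2 : ∀ j, tm X (nV k' j) = a j) (u : BT) : fm X (loc k k' u) := by
  rcases u with _ | ⟨_ | ⟨_ | ⟨_ | ⟨_ | _, _⟩, _ | _⟩, t⟩, u⟩ <;>
    simp [loc, BT.isNode, BT.left, BT.right, h1, h2, bf, idx_eq, fm]

lemma loc_sound {X : BT → ℝ} {k k' : ℕ} {φ : BT} (h : ∀ u ∈ subs φ, fm X (loc k k' u)) :
    ∀ (n : ℕ) (u : BT), size u < n → Pos φ u → (fm X (tT k u) ↔ bf (fun j => tm X (nV k' j)) u) := by
  intro n
  induction n with
  | zero => simp
  | succ n ih =>
    intro u hu hp
    have H := h u hp.mem
    rcases u with _ | ⟨_ | ⟨g, t⟩, u⟩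
    · simpa [loc, BT.isNode, bf, fm] using H
    · have := ih u (by rw [size_node] at hu; omega) hp.r
      simpa [loc, BT.isNode, BT.left, BT.right, bf, this] using H
    · have h1 := ih t (by simp only [size_node] at hu; omega) hp.l.r
      have h2 := ih u (by simp only [size_node] at hu; omega) hp.r
      rcases g with _ | ⟨_ | ⟨_ | _, _⟩, _ | _⟩ <;>
        simpa [loc, BT.isNode, BT.left, BT.right, bf, h1, h2, idx_eq] using H

def psi (n : ℕ) (P : List Poly) (φ : BT) (a b : ℕ) : BT :=
  bigA (tT 4 φ :: fN (tT 5 φ) :: fE (nV 2 0) (tA .leaf .leaf) ::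
    ((List.range (a + b)).map (fun j => fE (nV 2 (j + 1)) (tM (nV 2 j) (nV 2 j))) ++
    (subs φ).map (loc 4 3) ++ (subs φ).map (loc 5 1) ++
    (List.range n).map (fun i => tM (tM (nV 0 i) (nV 0 i)) (nV 2 a)) ++
    (List.range (size φ)).map fun j =>
      tA (fE (nV 3 j) (polyT (fun i => bif decide (i < n) then nV 0 i else tZ) (P.getD j [])))
        (tA (tM (tM (nV 1 j) (nV 1 j)) (nV 2 a))
          (tS (tA (fE (nV 1 j) tZ) (tM (tM (tM (nV 3 j) (nV 3 j)) (nV 2 b)) .leaf))
            (fE (tM (nV 1 j) (nV 3 j)) .leaf)))))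

def red (I : ℕ × List Poly × BT) : BT := psi I.1 I.2.1 I.2.2 (k1 I.1 (size I.2.2) (size I.2.1 + 1))
  (k2 I.1 (size I.2.2) (size I.2.1 + 1))

lemma red_pt : PT red := by
  have h0 : ∀ k k', PT (loc k k') := fun k k' => by unfold loc tT nV; fun_prop
  have h1 : PT fun q : (ℕ × List Poly × BT) × ℕ × ℕ => psi q.1.1 q.1.2.1 q.1.2.2 q.2.1 q.2.2 := by
    unfold psi tT nV; fun_prop
  exact h1.comp (f := fun I : ℕ × List Poly × BT => (I, k1 I.1 (size I.2.2) (size I.2.1 + 1),
    k2 I.1 (size I.2.2) (size I.2.1 + 1))) (by unfold k2 k1 qq hb hs kk; fun_prop)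

lemma closed_iff (n P φ) : IsClosed (Defd (n, P, φ)) ↔ IsClosed {x : ℕ → ℝ |
    bf (fun j => (P.getD j []).ev fun i => if i < n then x i else 0) φ} := by
  refine ⟨fun h => ?_, fun h => ?_⟩
  · convert h.preimage (f := fun x : ℕ → ℝ => WithLp.toLp 2 fun i : Fin n => x i) (by fun_prop) using 1
    ext x
    simp [Defd]
  · convert h.preimage (f := fun (x : EuclideanSpace ℝ (Fin n)) i => if h : i < n then x ⟨i, h⟩ else 0)
      (continuous_pi fun i => by split_ifs <;> fun_prop) using 1
    ext x
    simp only [Defd, Set.mem_ofPred_eq, Set.mem_preimage]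
    congr! 4 with j i
    split_ifs <;> rfl

lemma red_iff (I : ℕ × List Poly × BT) : ¬ IsClosed (Defd I) ↔ ∃ X, fm X (red I) := by
  obtain ⟨n, P, φ⟩ := I
  have hD : ∀ j, Q (Set.Iio n) (size P + 1)
      fun x => (P.getD j []).ev fun i => if i < n then x i else 0 := fun j => (q_ev n _).le (by
    rw [List.getD_eq_getElem?_getD]
    cases h : P[j]? with
    | none => simp
    | some p => have := size_lt_of_mem (List.mem_of_getElem? h); simp; omega)
  have hB : ∀ a b : ℕ → ℝ, (∀ j < size φ, SignType.sign (a j) = SignType.sign (b j)) →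
      bf a φ → bf b φ := fun a b h => (bf_congr _ φ (Nat.lt_succ_self _) h).1
  have pw : ∀ X, (fun i => tm X (bif decide (i < n) then nV 0 i else tZ)) =
      fun i => if i < n then tm X (nV 0 i) else 0 := fun X => funext fun i => by
    by_cases h : i < n <;> simp [h]
  rw [closed_iff]
  simp only [red, psi, fm_bigA, List.forall_mem_cons, List.forall_mem_append, List.forall_mem_map,
    List.mem_range, fm_N, fm_E, fm_A, fm_S, fm_M, tm_A, tm_M, tm_Z, tm_leaf, tm_polyT, pw]
  refine ⟨fun h => ?_, fun ⟨X, a1, a2, a3, ⟨⟨⟨a4, a5⟩, a6⟩, a7⟩, a8⟩ => ?_⟩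
  · obtain ⟨y, v, h1, h2, h3, h4⟩ := core1 hD hB h
    let d : ℕ → ℝ := fun j => (P.getD j []).ev fun i => if i < n then y i else 0
    let Y : ℕ × BT → ℝ := fun q => match q.1 with
      | 0 => y (Dec.ofBT q.2) | 1 => v (Dec.ofBT q.2) | 2 => 2 ^ 2 ^ (Dec.ofBT q.2 : ℕ)
      | 3 => d (Dec.ofBT q.2) | 4 => ind (bf d q.2) | _ => ind (bf v q.2)
    have e : ∀ k u, tm (fun t => Y (Dec.ofBT t)) (tV k u) = Y (k, u) := fun k u => by
      rw [tm_V, Dec.ofBT_toBT]
    have i : ∀ p, ind p = 1 ↔ p := fun p => by by_cases h : p <;> simp [ind, h]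
    have t4 : ∀ u, fm (fun t => Y (Dec.ofBT t)) (tT 4 u) ↔ bf d u := fun u => by
      rw [tT, fm_E, e]; exact i _
    have t5 : ∀ u, fm (fun t => Y (Dec.ofBT t)) (tT 5 u) ↔ bf v u := fun u => by
      rw [tT, fm_E, e]; exact i _
    refine ⟨fun t => Y (Dec.ofBT t), (t4 _).2 h1, mt (t5 _).1 h2, ?_, ⟨⟨⟨?_, fun u _ => loc_ok t4 ?_ u⟩,
      fun u _ => loc_ok t5 ?_ u⟩, ?_⟩, ?_⟩ <;> simp only [nV, e, Y, Dec.ofBT_toBT, implies_true]
    · norm_num
    · intro j _
      rw [← pow_add, pow_succ, mul_two]
    · exact h3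
    · exact fun j hj => ⟨rfl, h4 j hj⟩
  · have c : ∀ j ≤ k1 n (size φ) (size P + 1) + k2 n (size φ) (size P + 1),
        tm X (nV 2 j) = 2 ^ 2 ^ j := fun j hj => by
      induction j with
      | zero => rw [a3]; norm_num
      | succ j ih => rw [a4 j hj, ih (by omega), ← pow_add, pow_succ, mul_two]
    have p : Pos φ φ := ⟨[], [], by simp⟩
    rw [c _ (by omega)] at a7
    rw [c _ (Nat.le_add_right _ _), c _ (Nat.le_add_left _ _)] at a8
    exact core2 hD hB (y := fun i => tm X (nV 0 i)) (v := fun j => tm X (nV 1 j))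
      (hB _ _ (fun j hj => by rw [(a8 j hj).1]) ((loc_sound a5 _ φ (Nat.lt_succ_self _) p).1 a1))
      (mt (loc_sound a6 _ φ (Nat.lt_succ_self _) p).2 a2) a7 fun j hj => (a8 j hj).1 ▸ (a8 j hj).2

def φ0 : BT := .node (.node .leaf (.node (.node (.node .leaf (.node .leaf .leaf)) .leaf) .leaf))
  (.node (.node (.node (.node .leaf .leaf) .leaf) .leaf) (.node .leaf .leaf))

lemma hard_iff (E : List (Eqn ℕ)) :
    FMA E ↔ ¬ IsClosed (Defd (size E + 3, [quart E, [(c1, [size E + 2])]], φ0)) := by
  rw [closed_iff]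
  have e : ∀ x : ℕ → ℝ, ((quart E).ev fun i => if i < size E + 3 then x i else 0) = (quart E).ev x :=
    fun x => Poly.ev_congr (quart_in E) fun i hi => if_pos (by omega)
  simp only [φ0, bf, idx, List.getD_cons_zero, List.getD_cons_succ, zero_add, e, Poly.ev_cons,
    Poly.ev_nil, iv1, List.map_cons, List.map_nil, List.prod_cons, List.prod_nil,
    show size E + 2 < size E + 3 by omega, if_true]
  refine ⟨fun ⟨x, hx⟩ h => ?_, fun h => by_contra fun h' => h ?_⟩
  · have := h.preimage (f := fun t : ℝ => Function.update x (size E + 2) t) (by fun_prop)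
    have e' : ∀ t, (quart E).ev (Function.update x (size E + 2) t) = 0 := fun t =>
      (Poly.ev_congr (quart_in E) fun i hi => Function.update_of_ne hi.ne _ _).trans
        ((quart_ev E x).2.2 hx)
    simp only [Set.preimage_setOf_eq, e', Function.update_self, true_and] at this
    have k := closure_minimal (s := Set.Ioi (0 : ℝ)) (fun t ht => by simpa using ht) this
    simpa using k (a := 0) (by simp)
  · convert isClosed_empty
    exact Set.eq_empty_of_forall_notMem fun x hx => h' ⟨x, (quart_ev E x).2.1 hx.1⟩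

theorem result : Reduces CLOSEDᶜ ETR ∧ ∀ L : Language, Reduces Lᶜ ETR → Reduces L CLOSED := by
  refine ⟨RH.reduces (P := fun φ : BT => ∃ x, fm x φ) ⟨fun s => bif enc (decode s : ℕ × List Poly × BT)
    == s then red (decode s) else .leaf, by have := red_pt; fun_prop, fun s => ?_⟩, fun L h => ?_⟩
  · rw [Set.mem_compl_iff, CLOSED, mem_Lang']
    by_cases h : enc (decode s : ℕ × List Poly × BT) = s
    · simp [h, red_iff]
    · simp [h, show (enc (decode s : ℕ × List Poly × BT) == s) = false by simpa using h, fm]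
  · obtain ⟨g, hg, e⟩ := (rh_fma.pull h).red (Q := fun I => ¬ IsClosed (Defd I)) (r := fun E =>
      (size E + 3, [quart E, [(c1, [size E + 2])]], φ0)) (by fun_prop) hard_iff
    exact RH.reduces ⟨g, hg, fun s => not_iff_not.1 (e s)⟩

end Pool.Agent.Results.MP_432bcd_lc.Closed
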